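import Mathlib

/-!
# KE-PROJ: fibre sums of modular symbols (core, Mathlib only)
-/

set_option autoImplicit false

namespace Pool.Agent.W400.KE

open Finset

/-- `f (u⁻¹ / N)` -/
noncomputable def FF (f : ℚ → ℚ) (N : ℕ) (u : (ZMod N)ˣ) : ℚ :=
  f (((u⁻¹ : (ZMod N)ˣ) : ZMod N).val / N)

lemma per_nat (f : ℚ → ℚ) (hf : ∀ r, f (r + 1) = f r) (r : ℚ) (n : ℕ) : f (r + n) = f r := by
  induction n with
  | zero => simp
  | succ n ih =>
    rw [← ih, ← hf (r + n)]
    congr 1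
    push_cast
    ring

lemma per (f : ℚ → ℚ) (hf : ∀ r, f (r + 1) = f r) (M n : ℕ) (hM : 0 < M) :
    f (((n : ZMod M).val : ℚ) / M) = f ((n : ℚ) / M) := by
  have h0 : (M : ℚ) ≠ 0 := by exact_mod_cast hM.ne'
  rw [ZMod.val_natCast]
  have e : (n : ℚ) / M = ((n % M : ℕ) : ℚ) / M + (n / M : ℕ) := by
    have h1 : (n : ℚ) = ((n % M : ℕ) : ℚ) + M * (n / M : ℕ) := by
      exact_mod_cast (Nat.mod_add_div n M).symm
    rw [div_add' _ _ _ h0]
    congr 1
    rw [h1]
    ring_nf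
  rw [e, per_nat f hf]

lemma um_nat {N M : ℕ} (h : M ∣ N) (u : (ZMod N)ˣ) (n : ℕ) (hn : (u : ZMod N) = n) :
    ((ZMod.unitsMap h u : (ZMod M)ˣ) : ZMod M) = (n : ZMod M) := by
  rw [ZMod.unitsMap_val, hn, ZMod.cast_natCast h]

theorem core (f : ℚ → ℚ) (hf : ∀ r, f (r + 1) = f r) (a : ℚ) (l M N : ℕ) (hl : l.Prime)
    (hM : 0 < M) (hco : Nat.Coprime l M) (hN : N = l * M)
    (hecke : ∀ r, a * f r = f (l * r) + ∑ u ∈ range l, f ((r + u) / l))
    (h : M ∣ N) [Fintype (ZMod N)ˣ] [DecidableEq (ZMod M)ˣ] (c b : (ZMod M)ˣ)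
    (hc : (c : ZMod M) = (l : ℕ)) :
    ∑ u ∈ (univ : Finset (ZMod N)ˣ).filter (fun u => ZMod.unitsMap h u = b), FF f N u =
      a * FF f M b - FF f M (c⁻¹ * b) - FF f M (c * b) := by
  classical
  have : NeZero M := ⟨hM.ne'⟩
  have hl0 := hl.pos
  have hN0 : 0 < N := by rw [hN]; positivity
  have : NeZero N := ⟨hN0.ne'⟩
  have hMq : (M : ℚ) ≠ 0 := by exact_mod_cast hM.ne'
  have hlq : (l : ℚ) ≠ 0 := by exact_mod_cast hl0.ne'
  have hNq : (N : ℚ) = l * M := by rw [hN]; push_cast; rfl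
  set t : ℕ := ((b⁻¹ : (ZMod M)ˣ) : ZMod M).val with ht
  have htM : t < M := ZMod.val_lt _
  have htb : ((t : ℕ) : ZMod M) = ((b⁻¹ : (ZMod M)ˣ) : ZMod M) := ZMod.natCast_zmod_val _
  have htco : Nat.Coprime t M := ZMod.val_coe_unit_coprime b⁻¹
  -- the Hecke relation
  have hsum : ∑ j ∈ range l, f (((t + M * j : ℕ) : ℚ) / N) =
      a * f ((t : ℚ) / M) - f (((l * t : ℕ) : ℚ) / M) := by
    have h1 := hecke ((t : ℚ) / M)
    have h2 : (l : ℚ) * ((t : ℚ) / M) = ((l * t : ℕ) : ℚ) / M := by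
      push_cast
      ring
    rw [h2] at h1
    have h3 : ∑ u ∈ range l, f (((t : ℚ) / M + u) / l) =
        ∑ j ∈ range l, f (((t + M * j : ℕ) : ℚ) / N) := by
      refine Finset.sum_congr rfl fun j _ => ?_
      congr 1
      rw [hNq]
      push_cast
      field_simp
    rw [h3] at h1
    linarith
  -- the index `j0`
  have : Fact l.Prime := ⟨hl⟩
  have hMl : ((M : ℕ) : ZMod l) ≠ 0 := by
    rw [Ne, ZMod.natCast_eq_zero_iff]
    intro hd
    have := hco.symm
    exact (Nat.Prime.coprime_iff_not_dvd hl).1 hco hd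
  set j0 : ℕ := (-(t : ZMod l) * ((M : ℕ) : ZMod l)⁻¹).val with hj0
  have hj0l : j0 < l := ZMod.val_lt _
  have hj0' : ∀ j : ℕ, j < l → (l ∣ t + M * j ↔ j = j0) := by
    intro j hj
    rw [← ZMod.natCast_eq_zero_iff]
    push_cast
    constructor
    · intro h1
      have h2 : (j : ZMod l) = -(t : ZMod l) * ((M : ℕ) : ZMod l)⁻¹ := by
        field_simp
        linear_combination h1
      rw [hj0, ← h2, ZMod.val_natCast, Nat.mod_eq_of_lt hj]
    · intro h1
      have h2 : (j : ZMod l) = -(t : ZMod l) * ((M : ℕ) : ZMod l)⁻¹ := by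
        rw [h1, hj0, ZMod.natCast_zmod_val]
      rw [h2]
      field_simp
      ring
  obtain ⟨w, hw⟩ := (hj0' j0 hj0l).2 rfl
  -- the two other values
  have hcb : FF f M (c * b) = f (((t + M * j0 : ℕ) : ℚ) / N) := by
    have h1 : (((c * b)⁻¹ : (ZMod M)ˣ) : ZMod M) = ((w : ℕ) : ZMod M) := by
      have h2 : (c : ZMod M) * ((w : ℕ) : ZMod M) = ((b⁻¹ : (ZMod M)ˣ) : ZMod M) := by
        rw [hc, ← htb]
        have h3 : ((l * w : ℕ) : ZMod M) = ((t + M * j0 : ℕ) : ZMod M) := by rw [hw]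
        push_cast at h3
        rw [h3]
        simp
      rw [mul_inv, Units.val_mul, ← h2, ← mul_assoc, Units.inv_mul, one_mul]
    unfold FF
    rw [h1, per f hf M w hM, hw, hNq]
    congr 1
    push_cast
    field_simp
  have hcb' : FF f M (c⁻¹ * b) = f (((l * t : ℕ) : ℚ) / M) := by
    have h1 : (((c⁻¹ * b)⁻¹ : (ZMod M)ˣ) : ZMod M) = ((l * t : ℕ) : ZMod M) := by
      rw [mul_inv, inv_inv, Units.val_mul, hc, ← htb]
      push_cast
      rfl
    unfold FF
    rw [h1, per f hf M _ hM]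
  have hb : FF f M b = f ((t : ℚ) / M) := rfl
  -- the bijection
  have hval : ∀ u : (ZMod N)ˣ, ZMod.unitsMap h u = b →
      ((u⁻¹ : (ZMod N)ˣ) : ZMod N).val = t + M * (((u⁻¹ : (ZMod N)ˣ) : ZMod N).val / M) := by
    intro u hu
    have h1 : ((((u⁻¹ : (ZMod N)ˣ) : ZMod N).val : ℕ) : ZMod M) =
        ((b⁻¹ : (ZMod M)ˣ) : ZMod M) := by
      rw [← um_nat h u⁻¹ _ (ZMod.natCast_zmod_val _).symm, map_inv, hu]
    have h2 : ((u⁻¹ : (ZMod N)ˣ) : ZMod N).val % M = t := by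
      rw [ht, ← h1, ZMod.val_natCast]
    rw [← h2]
    exact (Nat.mod_add_div _ _).symm
  have hbij : ∑ u ∈ (univ : Finset (ZMod N)ˣ).filter (fun u => ZMod.unitsMap h u = b), FF f N u =
      ∑ j ∈ (range l).erase j0, f (((t + M * j : ℕ) : ℚ) / N) := by
    refine Finset.sum_bij (fun u _ => ((u⁻¹ : (ZMod N)ˣ) : ZMod N).val / M) ?_ ?_ ?_ ?_
    · intro u hu
      have hu' := (Finset.mem_filter.1 hu).2
      have h1 := hval u hu'
      have h2 : ((u⁻¹ : (ZMod N)ˣ) : ZMod N).val < N := ZMod.val_lt _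
      have h3 : ((u⁻¹ : (ZMod N)ˣ) : ZMod N).val / M < l := by
        apply Nat.div_lt_of_lt_mul
        rw [mul_comm, ← hN]
        exact h2
      rw [Finset.mem_erase, Finset.mem_range]
      refine ⟨?_, h3⟩
      intro he
      have h4 := (hj0' _ h3).2 he
      rw [← h1] at h4
      have h5 : Nat.Coprime ((u⁻¹ : (ZMod N)ˣ) : ZMod N).val N := ZMod.val_coe_unit_coprime u⁻¹
      have h6 : l ∣ Nat.gcd ((u⁻¹ : (ZMod N)ˣ) : ZMod N).val N :=
        Nat.dvd_gcd h4 ⟨M, hN⟩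
      rw [h5] at h6
      exact hl.one_lt.ne' (Nat.dvd_one.1 h6)
    · intro u hu v hv he
      have h1 := hval u (Finset.mem_filter.1 hu).2
      have h2 := hval v (Finset.mem_filter.1 hv).2
      have he' : ((u⁻¹ : (ZMod N)ˣ) : ZMod N).val / M = ((v⁻¹ : (ZMod N)ˣ) : ZMod N).val / M := he
      rw [he', ← h2] at h1
      have h3 := ZMod.val_injective N h1
      exact inv_injective (Units.ext h3)
    · intro j hj
      rw [Finset.mem_erase, Finset.mem_range] at hj
      have h1 : ¬ l ∣ t + M * j := fun h2 => hj.1 ((hj0' j hj.2).1 h2)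
      have h2 : Nat.Coprime (t + M * j) N := by
        rw [hN]
        refine Nat.Coprime.mul_right ((Nat.Prime.coprime_iff_not_dvd hl).2 h1).symm ?_
        simpa using htco
      have h3 : t + M * j < N := by
        rw [hN]
        have : M * (j + 1) ≤ M * l := Nat.mul_le_mul_left M hj.2
        rw [mul_comm l M]
        have h4 : M * (j + 1) = M * j + M := by ring
        omega
      have h4 : (((ZMod.unitOfCoprime (t + M * j) h2)⁻¹⁻¹ : (ZMod N)ˣ) : ZMod N).val =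
          t + M * j := by
        rw [inv_inv, ZMod.coe_unitOfCoprime, ZMod.val_natCast, Nat.mod_eq_of_lt h3]
      refine ⟨(ZMod.unitOfCoprime (t + M * j) h2)⁻¹, ?_, ?_⟩
      · rw [Finset.mem_filter]
        refine ⟨Finset.mem_univ _, ?_⟩
        rw [map_inv, inv_eq_iff_eq_inv]
        apply Units.ext
        rw [um_nat h _ (t + M * j) (ZMod.coe_unitOfCoprime _ _), ← htb]
        push_cast
        simp
      · show (((ZMod.unitOfCoprime (t + M * j) h2)⁻¹⁻¹ : (ZMod N)ˣ) : ZMod N).val / M = j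
        rw [h4, Nat.add_mul_div_left _ _ hM, Nat.div_eq_of_lt htM, zero_add]
    · intro u hu
      have h1 := hval u (Finset.mem_filter.1 hu).2
      unfold FF
      rw [← h1]
  rw [hbij, hcb, hcb', hb, ← hsum, ← Finset.add_sum_erase _ _ (Finset.mem_range.2 hj0l)]
  ring

/-- the fibres of `(ℤ/lM)ˣ → (ℤ/M)ˣ` and of `(ℤ/lM')ˣ → (ℤ/M')ˣ` -/
theorem fibre (l M M' N N' : ℕ) (hl : 0 < l) (hM : 0 < M) (hco : Nat.Coprime l M) (hN : N = l * M)
    (hN' : N' = l * M') (h : M ∣ N) (h' : M' ∣ N') (hMM : M' ∣ M) (hNN : N' ∣ N)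
    [Fintype (ZMod N)ˣ] [Fintype (ZMod N')ˣ] [DecidableEq (ZMod M)ˣ] [DecidableEq (ZMod M')ˣ]
    (b : (ZMod M)ˣ) (G : (ZMod N')ˣ → ℚ) :
    ∑ u ∈ (univ : Finset (ZMod N)ˣ).filter (fun u => ZMod.unitsMap h u = b),
        G (ZMod.unitsMap hNN u) =
      ∑ v ∈ (univ : Finset (ZMod N')ˣ).filter (fun v => ZMod.unitsMap h' v =
        ZMod.unitsMap hMM b), G v := by
  classical
  have hM' : 0 < M' := Nat.pos_of_dvd_of_pos hMM hM
  have : NeZero M := ⟨hM.ne'⟩
  have : NeZero M' := ⟨hM'.ne'⟩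
  have hN0 : 0 < N := by rw [hN]; positivity
  have hN0' : 0 < N' := by rw [hN']; positivity
  have : NeZero N := ⟨hN0.ne'⟩
  have : NeZero N' := ⟨hN0'.ne'⟩
  have hlN : l ∣ N := ⟨M, hN⟩
  have hlN' : l ∣ N' := ⟨M', hN'⟩
  refine Finset.sum_bij (fun u _ => ZMod.unitsMap hNN u) ?_ ?_ ?_ ?_
  · intro u hu
    have hu' := (Finset.mem_filter.1 hu).2
    rw [Finset.mem_filter]
    refine ⟨Finset.mem_univ _, ?_⟩
    rw [← hu']
    apply Units.ext
    have e1 := um_nat hNN u _ (ZMod.natCast_zmod_val _).symm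
    have e2 := um_nat h' (ZMod.unitsMap hNN u) _ e1
    have e3 := um_nat h u _ (ZMod.natCast_zmod_val _).symm
    have e4 := um_nat hMM (ZMod.unitsMap h u) _ e3
    rw [e2, e4]
  · intro u hu v hv he
    have hu' := (Finset.mem_filter.1 hu).2
    have hv' := (Finset.mem_filter.1 hv).2
    have he' : ZMod.unitsMap hNN u = ZMod.unitsMap hNN v := he
    have e1 := um_nat hNN u _ (ZMod.natCast_zmod_val _).symm
    have e2 := um_nat hNN v _ (ZMod.natCast_zmod_val _).symm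
    have e3 := um_nat h u _ (ZMod.natCast_zmod_val _).symm
    have e4 := um_nat h v _ (ZMod.natCast_zmod_val _).symm
    rw [he', e2, ZMod.natCast_eq_natCast_iff] at e1
    rw [hu', ← hv', e4, ZMod.natCast_eq_natCast_iff] at e3
    have e5 : (v : ZMod N).val ≡ (u : ZMod N).val [MOD l] := e1.of_dvd hlN'
    have e6 : (v : ZMod N).val ≡ (u : ZMod N).val [MOD (l * M)] :=
      (Nat.modEq_and_modEq_iff_modEq_mul hco).1 ⟨e5, e3⟩
    rw [← hN, ← ZMod.natCast_eq_natCast_iff, ZMod.natCast_zmod_val, ZMod.natCast_zmod_val] at e6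
    exact (Units.ext e6).symm
  · intro v hv
    have hv' := (Finset.mem_filter.1 hv).2
    obtain ⟨n, hn1, hn2⟩ := Nat.chineseRemainder hco (v : ZMod N').val (b : ZMod M).val
    have hnl : Nat.Coprime n l := by
      have h1 : Nat.Coprime (v : ZMod N').val N' := ZMod.val_coe_unit_coprime v
      have h2 : Nat.Coprime (v : ZMod N').val l := h1.coprime_dvd_right hlN'
      have h3 := hn1.gcd_eq
      rw [Nat.Coprime, h3]
      exact h2
    have hnM : Nat.Coprime n M := by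
      have h1 : Nat.Coprime (b : ZMod M).val M := ZMod.val_coe_unit_coprime b
      have h3 := hn2.gcd_eq
      rw [Nat.Coprime, h3]
      exact h1
    have hnN : Nat.Coprime n N := by
      rw [hN]
      exact Nat.Coprime.mul_right hnl hnM
    refine ⟨ZMod.unitOfCoprime n hnN, ?_, ?_⟩
    · rw [Finset.mem_filter]
      refine ⟨Finset.mem_univ _, ?_⟩
      apply Units.ext
      rw [um_nat h _ n (ZMod.coe_unitOfCoprime _ _)]
      rw [(ZMod.natCast_eq_natCast_iff _ _ _).2 hn2, ZMod.natCast_zmod_val]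
    · show ZMod.unitsMap hNN _ = v
      apply Units.ext
      rw [um_nat hNN _ n (ZMod.coe_unitOfCoprime _ _)]
      -- `n ≡ v` mod `l` and mod `M'`
      have e1 := um_nat h' v _ (ZMod.natCast_zmod_val _).symm
      have e2 := um_nat hMM b _ (ZMod.natCast_zmod_val _).symm
      rw [hv', e2, ZMod.natCast_eq_natCast_iff] at e1
      have e3 : n ≡ (v : ZMod N').val [MOD M'] := (hn2.of_dvd hMM).trans e1
      have hco' : Nat.Coprime l M' := hco.coprime_dvd_right hMM
      have e4 : n ≡ (v : ZMod N').val [MOD (l * M')] :=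
        (Nat.modEq_and_modEq_iff_modEq_mul hco').1 ⟨hn1, e3⟩
      rw [← hN', ← ZMod.natCast_eq_natCast_iff, ZMod.natCast_zmod_val] at e4
      exact e4
  · intro u hu
    rfl

end Pool.Agent.W400.KE
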