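import Pool.Agent.W97.KE.Stm
import Pool.Agent.W400.KE.ProjCore

/-!
# KE-PROJ: the projection of `ϑ_l` to `ℛ_1`
-/

set_option autoImplicit false

namespace Pool.Agent.W400.KE

open Finset Pool.Agent.W97.KE
open Pool.Agent.W97.MT (ap)

theorem s_proj : S_PROJ := by
  classical
  intro W S p _ l hl hlp hper hH α x y hx hy c hc b
  have hp : p.Prime := Fact.out
  set f : ℚ → ℚ := fun r => S.plus r + S.minus r with hf
  have hfper : ∀ r, f (r + 1) = f r := by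
    intro r
    show S.plus (r + 1) + S.minus (r + 1) = S.plus r + S.minus r
    rw [(hper r).1, (hper r).2]
  have hhecke : ∀ r, (ap W l : ℚ) * f r = f (l * r) + ∑ u ∈ range l, f ((r + u) / l) := by
    intro r
    have h1 := (hH r).1
    have h2 := (hH r).2
    show (ap W l : ℚ) * (S.plus r + S.minus r) = (S.plus (l * r) + S.minus (l * r)) +
      ∑ u ∈ range l, (S.plus ((r + u) / l) + S.minus ((r + u) / l))
    rw [Finset.sum_add_distrib, mul_add, h1, h2]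
    ring
  have hth : ∀ (M : ℕ) (u : (ZMod M)ˣ), theta S M u = FF f M u := fun M u => rfl
  have hcol : Nat.Coprime l p := (Nat.coprime_primes hl hp).2 hlp
  have hco2 : Nat.Coprime l (1 * p ^ (1 + 1)) := by
    rw [one_mul]; exact hcol.pow_right _
  have hco1 : Nat.Coprime l (1 * p ^ 1) := by
    rw [one_mul]; exact hcol.pow_right _
  have hM2 : 0 < 1 * p ^ (1 + 1) := by have := hp.pos; positivity
  have hM1 : 0 < 1 * p ^ 1 := by have := hp.pos; positivity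
  have hN2 : l * p ^ (1 + 1) = l * (1 * p ^ (1 + 1)) := by ring
  have hN1 : l * p ^ 1 = l * (1 * p ^ 1) := by ring
  have h2 : 1 * p ^ (1 + 1) ∣ l * p ^ (1 + 1) := Nat.mul_dvd_mul_right (one_dvd l) _
  have h1 : 1 * p ^ 1 ∣ l * p ^ 1 := Nat.mul_dvd_mul_right (one_dvd l) _
  have hMM : 1 * p ^ 1 ∣ 1 * p ^ (1 + 1) :=
    Nat.mul_dvd_mul_left 1 (pow_dvd_pow p (Nat.le_succ 1))
  have hNN : l * p ^ 1 ∣ l * p ^ (1 + 1) :=
    Nat.mul_dvd_mul_left l (pow_dvd_pow p (Nat.le_succ 1))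
  have : NeZero (l * p ^ (1 + 1)) := ⟨by have := hp.pos; have := hl.pos; positivity⟩
  have : NeZero (l * p ^ 1) := ⟨by have := hp.pos; have := hl.pos; positivity⟩
  have : NeZero (1 * p ^ (1 + 1)) := ⟨hM2.ne'⟩
  have : NeZero (1 * p ^ 1) := ⟨hM1.ne'⟩
  -- the two sums
  have hA := core f hfper (ap W l : ℚ) l (1 * p ^ (1 + 1)) (l * p ^ (1 + 1)) hl hM2 hco2 hN2
    hhecke h2 c b hc
  have hc1 : ((ZMod.unitsMap hMM c : (ZMod (1 * p ^ 1))ˣ) : ZMod (1 * p ^ 1)) = (l : ℕ) :=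
    um_nat hMM c l hc
  have hB := core f hfper (ap W l : ℚ) l (1 * p ^ 1) (l * p ^ 1) hl hM1 hco1 hN1
    hhecke h1 (ZMod.unitsMap hMM c) (ZMod.unitsMap hMM b) hc1
  rw [← fibre l (1 * p ^ (1 + 1)) (1 * p ^ 1) (l * p ^ (1 + 1)) (l * p ^ 1) hl.pos hM2 hco2 hN2 hN1
    h2 h1 hMM hNN b (fun v => FF f (l * p ^ 1) v)] at hB
  -- the finite sum
  have hfin : ∑ᶠ u : {u : (ZMod (l * p ^ (1 + 1)))ˣ // prl p l u = b}, ((x.1 1).coeff u.1 : ℤ_[p]) =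
      ∑ u ∈ (univ : Finset (ZMod (l * p ^ (1 + 1)))ˣ).filter
        (fun u => ZMod.unitsMap h2 u = b), ((x.1 1).coeff u : ℤ_[p]) := by
    rw [finsum_eq_sum_of_fintype]
    symm
    refine Finset.sum_subtype _ ?_ _
    intro u
    rw [Finset.mem_filter]
    exact ⟨fun h => h.2, fun h => ⟨Finset.mem_univ _, h⟩⟩
  rw [hfin]
  have hinj : Function.Injective (PadicInt.Coe.ringHom : ℤ_[p] →+* ℚ_[p]) :=
    fun a b h => Subtype.ext h
  apply hinj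
  rw [map_sum, map_sub, map_sub, map_mul]
  have hcoe : ∀ z : ℤ_[p], (PadicInt.Coe.ringHom : ℤ_[p] →+* ℚ_[p]) z = (z : ℚ_[p]) :=
    fun z => rfl
  simp only [hcoe]
  have hap : (((ap W l : ℤ) : ℤ_[p]) : ℚ_[p]) = ((ap W l : ℤ) : ℚ_[p]) := by push_cast; rfl
  rw [hap]
  have hx1 : ∀ u : (ZMod (l * p ^ (1 + 1)))ˣ, (((x.1 1).coeff u : ℤ_[p]) : ℚ_[p]) =
      ((α : ℚ_[p]) ^ (1 + 1))⁻¹ * ((FF f (l * p ^ (1 + 1)) u : ℚ) -
        (α : ℚ_[p])⁻¹ * (FF f (l * p ^ 1) (ZMod.unitsMap hNN u) : ℚ)) := fun u => hx 1 u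
  have hy1 : ∀ u : (ZMod (1 * p ^ (1 + 1)))ˣ, (((y.1 1).coeff u : ℤ_[p]) : ℚ_[p]) =
      ((α : ℚ_[p]) ^ (1 + 1))⁻¹ * ((FF f (1 * p ^ (1 + 1)) u : ℚ) -
        (α : ℚ_[p])⁻¹ * (FF f (1 * p ^ 1) (ZMod.unitsMap hMM u) : ℚ)) := fun u => hy 1 u
  simp only [hx1, hy1]
  rw [← Finset.mul_sum, Finset.sum_sub_distrib, ← Finset.mul_sum]
  have hA' : (∑ u ∈ (univ : Finset (ZMod (l * p ^ (1 + 1)))ˣ).filter
      (fun u => ZMod.unitsMap h2 u = b), ((FF f (l * p ^ (1 + 1)) u : ℚ) : ℚ_[p])) =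
      (ap W l : ℚ_[p]) * (FF f (1 * p ^ (1 + 1)) b : ℚ) - (FF f (1 * p ^ (1 + 1)) (c⁻¹ * b) : ℚ) -
        (FF f (1 * p ^ (1 + 1)) (c * b) : ℚ) := by
    have h3 := congrArg (fun q : ℚ => (q : ℚ_[p])) hA
    push_cast at h3
    exact h3
  have hB' : (∑ u ∈ (univ : Finset (ZMod (l * p ^ (1 + 1)))ˣ).filter
      (fun u => ZMod.unitsMap h2 u = b), ((FF f (l * p ^ 1) (ZMod.unitsMap hNN u) : ℚ) : ℚ_[p])) =
      (ap W l : ℚ_[p]) * (FF f (1 * p ^ 1) (ZMod.unitsMap hMM b) : ℚ) -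
        (FF f (1 * p ^ 1) ((ZMod.unitsMap hMM c)⁻¹ * ZMod.unitsMap hMM b) : ℚ) -
        (FF f (1 * p ^ 1) (ZMod.unitsMap hMM c * ZMod.unitsMap hMM b) : ℚ) := by
    have h3 := congrArg (fun q : ℚ => (q : ℚ_[p])) hB
    push_cast at h3
    exact h3
  rw [hA', hB', map_mul, map_mul, map_inv]
  ring

end Pool.Agent.W400.KE

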